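import Pool.Agent.W602.RG.Stm

/-! RG-GPL: the place of `EE k L` above a place of `L`. -/

set_option autoImplicit false

open FF Pool.Agent.W602.RG

namespace Pool.Agent.W374.RG.GPL

variable {k L : Type} [Field k] [Field L] [Algebra k L]

/-- sums of functions of distinct orders -/
theorem sum_ord (p : Place k L) (w : ℤ → L) (hw : ∀ t, w t ≠ 0) (c : ℤ → k) (T : Finset ℤ)
    (ho : ∀ t ∈ T, p.ord (w t) = t) (hc : ∃ t ∈ T, c t ≠ 0) :
    ∑ t ∈ T, algebraMap k L (c t) * w t ≠ 0 ∧ p.ord (∑ t ∈ T, algebraMap k L (c t) * w t) ∈ T := by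
  classical
  induction T using Finset.induction_on_max with
  | empty => simp at hc
  | insert a T hmax ih =>
    have haT : a ∉ T := fun h => lt_irrefl _ (hmax a h)
    rw [Finset.sum_insert haT]
    have hoT : ∀ t ∈ T, p.ord (w t) = t := fun t ht => ho t (Finset.mem_insert_of_mem ht)
    have hoa : p.ord (w a) = a := ho a (Finset.mem_insert_self _ _)
    by_cases hT : ∃ t ∈ T, c t ≠ 0
    · obtain ⟨h1, h2⟩ := ih hoT hT
      by_cases hca : c a = 0
      · simp only [hca, map_zero, zero_mul, zero_add]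
        exact ⟨h1, Finset.mem_insert_of_mem h2⟩
      · have hca' : algebraMap k L (c a) ≠ 0 := by
          simpa using hca
        have hne : algebraMap k L (c a) * w a ≠ 0 := mul_ne_zero hca' (hw a)
        have hoa' : p.ord (algebraMap k L (c a) * w a) = a := by
          rw [p.ord_mul hca' (hw a), p.ord_const hca, hoa, zero_add]
        have h3 := p.ord_add_eq h1 hne (by rw [hoa']; exact hmax _ h2)
        rw [add_comm] at h3
        refine ⟨h3.1, ?_⟩
        rw [h3.2]
        exact Finset.mem_insert_of_mem h2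
    · push Not at hT
      have hca : c a ≠ 0 := by
        obtain ⟨t, ht, htc⟩ := hc
        rcases Finset.mem_insert.1 ht with rfl | ht
        · exact htc
        · exact absurd (hT t ht) htc
      have hs : ∑ t ∈ T, algebraMap k L (c t) * w t = 0 :=
        Finset.sum_eq_zero fun t ht => by rw [hT t ht]; simp
      rw [hs, add_zero]
      have hca' : algebraMap k L (c a) ≠ 0 := by
        simpa using hca
      refine ⟨mul_ne_zero hca' (hw a), ?_⟩
      rw [p.ord_mul hca' (hw a), p.ord_const hca, hoa, zero_add]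
      exact Finset.mem_insert_self _ _

/-- the orders of the elements of a finite dimensional space -/
theorem finite_ord (p : Place k L) (W : Submodule k L) (hW : FiniteDimensional k W) :
    {N : ℤ | ∃ w ∈ W, w ≠ 0 ∧ p.ord w = N}.Finite := by
  classical
  by_contra hinf
  obtain ⟨T, hT, hcard⟩ := Set.Infinite.exists_subset_card_eq hinf (Module.finrank k W + 1)
  have hch : ∀ t : ℤ, ∃ w : L, w ≠ 0 ∧ (t ∈ T → w ∈ W ∧ p.ord w = t) := by
    intro t
    by_cases ht : t ∈ T
    · obtain ⟨w, hw, hw0, hwo⟩ := hT ht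
      exact ⟨w, hw0, fun _ => ⟨hw, hwo⟩⟩
    · exact ⟨1, one_ne_zero, fun h => absurd h ht⟩
  choose w hw0 hw using hch
  have hli : LinearIndependent k (fun t : T => (⟨w t, (hw t t.2).1⟩ : W)) := by
    rw [Fintype.linearIndependent_iff]
    intro g hg
    by_contra hne
    push Not at hne
    obtain ⟨i, hi⟩ := hne
    have h1 := sum_ord p w hw0 (fun t => if h : t ∈ T then g ⟨t, h⟩ else 0) T
      (fun t ht => (hw t ht).2) ⟨i, i.2, by simpa using hi⟩
    apply h1.1
    have h2 := congrArg Subtype.val hg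
    rw [← Finset.sum_coe_sort T]
    have h3 : (∑ i : T, g i • (⟨w i, (hw i i.2).1⟩ : W) : W).1 = ∑ i : T, g i • w i := by
      rw [Submodule.coe_sum]
      rfl
    rw [h3] at h2
    refine (Finset.sum_congr rfl fun x _ => ?_).trans h2
    rw [Algebra.smul_def]
    simp
  have := hli.fintype_card_le_finrank
  simp only [Fintype.card_coe, hcard] at this
  omega

/-- the sequence has a well-defined order -/
def Good (p : Place k L) (u : ℕ → L) (N : ℤ) : Prop :=
  ∀ᶠ n in (Filter.hyperfilter ℕ : Filter ℕ), u n ≠ 0 ∧ p.ord (u n) = N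

theorem ne_zero_ev {K : Type} [Field K] (u : ℕ → K) (h : Om.mk u ≠ 0) :
    ∀ᶠ n in (Filter.hyperfilter ℕ : Filter ℕ), u n ≠ 0 := by
  rw [Ultrafilter.eventually_not]
  intro h1
  apply h
  rw [← Om.mk_zero, Om.mk_eq]
  exact h1

theorem good_ne {p : Place k L} {u : ℕ → L} {N : ℤ} (h : Good p u N) : Om.mk u ≠ 0 := by
  intro h0
  rw [← Om.mk_zero, Om.mk_eq] at h0
  obtain ⟨n, h1, h2⟩ := (h.and h0).exists
  exact h1.1 h2

theorem good_congr {p : Place k L} {u v : ℕ → L} {N : ℤ} (h : Om.mk u = Om.mk v)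
    (hu : Good p u N) : Good p v N := by
  rw [Om.mk_eq] at h
  filter_upwards [h, hu] with n h1 h2
  rwa [← h1]

theorem good_unique {p : Place k L} {u : ℕ → L} {N M : ℤ} (hu : Good p u N)
    (hv : Good p u M) : N = M := by
  obtain ⟨n, h1, h2⟩ := (hu.and hv).exists
  rw [← h1.2, ← h2.2]

/-- represented by a sequence in a finite dimensional space -/
def FD (k : Type) {L : Type} [Field k] [Field L] [Algebra k L] (x : Om L) : Prop :=
  ∃ u : ℕ → L, x = Om.mk u ∧ ∃ W : Submodule k L, W.FG ∧ ∀ n, u n ∈ W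

theorem FD.good (p : Place k L) {x : Om L} (hx : FD k x) (h0 : x ≠ 0) :
    ∃ u : ℕ → L, ∃ N : ℤ, x = Om.mk u ∧ Good p u N := by
  obtain ⟨u, rfl, W, hW, hu⟩ := hx
  have hfd : FiniteDimensional k W := Module.Finite.of_fg hW
  have hne := ne_zero_ev u h0
  have hfin := finite_ord p W hfd
  have h1 : (⋃ N ∈ {N : ℤ | ∃ w ∈ W, w ≠ 0 ∧ p.ord w = N}, {n : ℕ | u n ≠ 0 ∧ p.ord (u n) = N}) ∈
      Filter.hyperfilter ℕ := by
    have : {n : ℕ | u n ≠ 0} ∈ Filter.hyperfilter ℕ := hne
    refine Filter.mem_of_superset this ?_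
    intro n hn
    simp only [Set.mem_iUnion]
    exact ⟨p.ord (u n), ⟨u n, hu n, hn, rfl⟩, hn, rfl⟩
  rw [Ultrafilter.finite_biUnion_mem_iff hfin] at h1
  obtain ⟨N, -, hN⟩ := h1
  exact ⟨u, N, rfl, hN⟩

theorem FD.add {x y : Om L} (hx : FD k x) (hy : FD k y) : FD k (x + y) := by
  obtain ⟨u, rfl, W, hW, hu⟩ := hx
  obtain ⟨v, rfl, V, hV, hv⟩ := hy
  exact ⟨_, Om.mk_add u v, W ⊔ V, hW.sup hV, fun n =>
    add_mem (Submodule.mem_sup_left (hu n)) (Submodule.mem_sup_right (hv n))⟩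

theorem FD.mul {x y : Om L} (hx : FD k x) (hy : FD k y) : FD k (x * y) := by
  obtain ⟨u, rfl, W, hW, hu⟩ := hx
  obtain ⟨v, rfl, V, hV, hv⟩ := hy
  exact ⟨_, Om.mk_mul u v, W * V, hW.mul hV, fun n => Submodule.mul_mem_mul (hu n) (hv n)⟩

theorem fd_cst (x : L) : FD k (cst L x) :=
  ⟨fun _ => x, rfl, Submodule.span k {x}, Submodule.fg_span_singleton x, fun _ =>
    Submodule.mem_span_singleton_self x⟩

theorem fd_mapOm (x : Om k) : FD k (mapOm k L x) := by
  obtain ⟨v, rfl⟩ := Om.mk_surj x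
  refine ⟨_, mapOm_mk k L v, Submodule.span k {1}, Submodule.fg_span_singleton 1, fun n => ?_⟩
  rw [Submodule.mem_span_singleton]
  exact ⟨v n, by rw [Algebra.smul_def, mul_one]⟩

theorem fd_neg_one : FD k (-1 : Om L) := by
  have := fd_cst (k := k) (L := L) (-1)
  rwa [map_neg, map_one] at this

theorem fd_one : FD k (1 : Om L) := by
  have := fd_cst (k := k) (L := L) 1
  rwa [map_one] at this

theorem fd_zero : FD k (0 : Om L) := by
  have := fd_cst (k := k) (L := L) 0
  rwa [map_zero] at this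

theorem FD.neg {x : Om L} (hx : FD k x) : FD k (-x) := by
  have := fd_neg_one.mul hx
  rwa [neg_one_mul] at this

theorem mem_frac {x : Om L} (hx : x ∈ EE k L) : ∃ a b : Om L, FD k a ∧ FD k b ∧ b ≠ 0 ∧
    x = a / b := by
  unfold EE at hx
  induction hx using Subfield.closure_induction with
  | mem x hx =>
    rcases hx with ⟨y, rfl⟩ | ⟨y, rfl⟩
    · exact ⟨_, 1, fd_cst y, fd_one, one_ne_zero, by rw [div_one]⟩
    · exact ⟨_, 1, fd_mapOm y, fd_one, one_ne_zero, by rw [div_one]⟩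
  | one => exact ⟨1, 1, fd_one, fd_one, one_ne_zero, by rw [div_one]⟩
  | add x y _ _ hx hy =>
    obtain ⟨a, b, ha, hb, hb0, rfl⟩ := hx
    obtain ⟨c, d, hc, hd, hd0, rfl⟩ := hy
    exact ⟨_, _, (ha.mul hd).add (hb.mul hc), hb.mul hd, mul_ne_zero hb0 hd0,
      div_add_div _ _ hb0 hd0⟩
  | neg x _ hx =>
    obtain ⟨a, b, ha, hb, hb0, rfl⟩ := hx
    exact ⟨_, _, ha.neg, hb, hb0, by rw [neg_div]⟩
  | inv x _ hx =>
    obtain ⟨a, b, ha, hb, hb0, rfl⟩ := hx
    by_cases ha0 : a = 0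
    · refine ⟨0, 1, fd_zero, fd_one, one_ne_zero, ?_⟩
      rw [ha0]; simp
    · exact ⟨b, a, hb, ha, ha0, by rw [inv_div]⟩
  | mul x y _ _ hx hy =>
    obtain ⟨a, b, ha, hb, hb0, rfl⟩ := hx
    obtain ⟨c, d, hc, hd, hd0, rfl⟩ := hy
    exact ⟨_, _, ha.mul hc, hb.mul hd, mul_ne_zero hb0 hd0, div_mul_div_comm _ _ _ _⟩

theorem good_mul {p : Place k L} {u v : ℕ → L} {N M : ℤ} (hu : Good p u N) (hv : Good p v M) :
    Good p (fun n => u n * v n) (N + M) := by
  filter_upwards [hu, hv] with n h1 h2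
  exact ⟨mul_ne_zero h1.1 h2.1, by rw [p.ord_mul h1.1 h2.1, h1.2, h2.2]⟩

theorem good_inv {p : Place k L} {u : ℕ → L} {N : ℤ} (hu : Good p u N) :
    Good p (fun n => (u n)⁻¹) (-N) := by
  filter_upwards [hu] with n h1
  exact ⟨inv_ne_zero h1.1, by rw [p.ord_inv, h1.2]⟩

theorem mk_inv {u : ℕ → L} (h : ∀ᶠ n in (Filter.hyperfilter ℕ : Filter ℕ), u n ≠ 0) :
    Om.mk (fun n => (u n)⁻¹) = (Om.mk u)⁻¹ := by
  apply eq_inv_of_mul_eq_one_left
  rw [Om.mk_mul, ← Om.mk_one, Om.mk_eq]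
  filter_upwards [h] with n h1
  exact inv_mul_cancel₀ h1

theorem exists_good (p : Place k L) {x : Om L} (hx : x ∈ EE k L) (h0 : x ≠ 0) :
    ∃ u : ℕ → L, ∃ N : ℤ, x = Om.mk u ∧ Good p u N := by
  obtain ⟨a, b, ha, hb, hb0, rfl⟩ := mem_frac hx
  have ha0 : a ≠ 0 := by
    rintro rfl
    exact h0 (by simp)
  obtain ⟨u, N, rfl, hu⟩ := ha.good p ha0
  obtain ⟨v, M, rfl, hv⟩ := hb.good p hb0
  refine ⟨_, _, ?_, good_mul hu (good_inv hv)⟩
  rw [← Om.mk_mul u, mk_inv (hv.mono fun n h => h.1), div_eq_mul_inv]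

theorem exists_all (p : Place k L) (x : EE k L) :
    ∃ N : ℤ, (x = 0 → N = 0) ∧ (x ≠ 0 → ∀ u : ℕ → L, (x : Om L) = Om.mk u → Good p u N) := by
  by_cases h0 : x = 0
  · exact ⟨0, fun _ => rfl, fun h => absurd h0 h⟩
  · have h0' : (x : Om L) ≠ 0 := fun h => h0 (Subtype.ext h)
    obtain ⟨u, N, hu, hN⟩ := exists_good p x.2 h0'
    exact ⟨N, fun h => absurd h h0, fun _ v hv => good_congr (hu.symm.trans hv) hN⟩

/-- the order on `EE k L` -/
noncomputable def eord (p : Place k L) (x : EE k L) : ℤ := (exists_all p x).choose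

theorem eord_zero (p : Place k L) : eord p 0 = 0 := (exists_all p 0).choose_spec.1 rfl

theorem eord_good (p : Place k L) {x : EE k L} (hx : x ≠ 0) {u : ℕ → L}
    (hu : (x : Om L) = Om.mk u) : Good p u (eord p x) :=
  (exists_all p x).choose_spec.2 hx u hu

theorem eord_eq (p : Place k L) {x : EE k L} {u : ℕ → L} {N : ℤ}
    (hu : (x : Om L) = Om.mk u) (h : Good p u N) : eord p x = N := by
  have hx : x ≠ 0 := by
    rintro rfl
    exact good_ne h hu.symm
  exact good_unique (eord_good p hx hu) h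

/-- the place above `p` -/
noncomputable def eplace (p : Place k L) : Place (Om k) (EE k L) where
  ord := eord p
  ord_zero := eord_zero p
  ord_mul := by
    intro f g hf hg
    obtain ⟨u, hu⟩ := Om.mk_surj (f : Om L)
    obtain ⟨v, hv⟩ := Om.mk_surj (g : Om L)
    refine eord_eq p (u := fun n => u n * v n) ?_
      (good_mul (eord_good p hf hu.symm) (eord_good p hg hv.symm))
    rw [← Om.mk_mul, hu, hv]
    rfl
  ord_add := by
    intro f g hf hg hfg
    obtain ⟨u, hu⟩ := Om.mk_surj (f : Om L)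
    obtain ⟨v, hv⟩ := Om.mk_surj (g : Om L)
    have h1 := eord_good p hf hu.symm
    have h2 := eord_good p hg hv.symm
    have h3 := eord_good p hfg (u := fun n => u n + v n)
      (by rw [← Om.mk_add, hu, hv]; rfl)
    obtain ⟨n, hn1, hn2, hn3⟩ := (h1.and (h2.and h3)).exists
    rw [← hn1.2, ← hn2.2, ← hn3.2]
    exact p.ord_add hn1.1 hn2.1 hn3.1
  ord_const := by
    intro c hc
    obtain ⟨v, rfl⟩ := Om.mk_surj c
    refine eord_eq p (u := fun n => algebraMap k L (v n)) rfl ?_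
    filter_upwards [ne_zero_ev v hc] with n hn
    exact ⟨by simpa using hn, p.ord_const hn⟩
  surj := by
    obtain ⟨t, ht0, ht⟩ := p.surj
    have hg : Good p (fun _ => t) 1 := Filter.Eventually.of_forall fun _ => ⟨ht0, ht⟩
    refine ⟨algebraMap L (EE k L) t, ?_, eord_eq p (u := fun _ => t) rfl hg⟩
    intro h
    exact good_ne hg (congrArg Subtype.val h)

theorem main : S_GPL := by
  intro k L _ _ _ _ _ _ p
  refine ⟨eplace p, ?_, ?_⟩
  · obtain ⟨t, ht0, ht⟩ := p.surj
    have hg : Good p (fun _ => t) 1 := Filter.Eventually.of_forall fun _ => ⟨ht0, ht⟩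
    refine ⟨t, ?_⟩
    have : (eplace p).ord (algebraMap L (EE k L) t) = 1 := eord_eq p (u := fun _ => t) rfl hg
    rw [this]
    exact one_ne_zero
  · intro g u hu h
    by_cases hg : g = 0
    · exact Or.inl hg
    · right
      obtain ⟨n, h1, h2⟩ := (eord_good p hg hu).exists
      change 0 < eord p g
      rw [← h2]
      rcases h n with h3 | h3
      · exact absurd h3 h1
      · exact h3

end Pool.Agent.W374.RG.GPL
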